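import Mathlib
import Pool.Agent.Lib_helper48.CNT.Final

/-!
Number fields of odd degree: relations between majority signs in which the sign of `-w` does not
occur.
-/

namespace Pool.Agent.Lib_helper3.CNT2

open Pool.Agent.Lib_helper11.CUB Pool.Agent.Lib_helper3.QUI Polynomial
open Pool.Agent.Lib_helper48.EVEN (Gen gen_affine gen_sq affine_not_mem)
open Pool.Agent.Lib_helper48.CNT (exc mem_exc Maj Ev Ev.and Ev.imp Ev.sub Ev.signs)

/-- A point which is not exceptional for four nodes. -/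
theorem exists_common4 {x : ℕ} {N : ℤ} (E : Fin 4 → Finset ℤ) (φ : Fin 4 → ℤ → ℤ)
    (hE : ∀ i, 4 * (E i).card ≤ x) (hφ : ∀ i, ∀ a b : ℤ, N ≤ a → N ≤ b → φ i a = φ i b → a = b) :
    ∃ n : ℤ, N ≤ n ∧ n ≤ N + x ∧ ∀ i, φ i n ∉ E i := by
  classical
  by_contra hcon
  push Not at hcon
  have h1 : Finset.Icc N (N + x) ⊆ Finset.univ.biUnion
      (fun i : Fin 4 => (Finset.Icc N (N + x)).filter (fun n => φ i n ∈ E i)) := by
    intro n hn
    obtain ⟨a, b⟩ := Finset.mem_Icc.1 hn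
    obtain ⟨i, hi⟩ := hcon n a b
    exact Finset.mem_biUnion.2 ⟨i, Finset.mem_univ _, Finset.mem_filter.2 ⟨hn, hi⟩⟩
  have h2 := (Finset.card_le_card h1).trans Finset.card_biUnion_le
  have h3 : ∀ i : Fin 4, ((Finset.Icc N (N + x)).filter (fun n => φ i n ∈ E i)).card ≤ (E i).card := by
    intro i
    apply Finset.card_le_card_of_injOn (φ i)
    · intro n hn
      exact (Finset.mem_filter.1 hn).2
    · intro a ha b hb hab
      exact hφ i a b (Finset.mem_Icc.1 (Finset.mem_filter.1 ha).1).1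
        (Finset.mem_Icc.1 (Finset.mem_filter.1 hb).1).1 hab
  have h4 : (Finset.Icc N (N + x)).card = x + 1 := by
    rw [Int.card_Icc]; omega
  have h5 : ∑ i : Fin 4, ((Finset.Icc N (N + x)).filter (fun n => φ i n ∈ E i)).card ≤
      (E 0).card + (E 1).card + (E 2).card + (E 3).card := by
    rw [Fin.sum_univ_four]
    exact Nat.add_le_add (Nat.add_le_add (Nat.add_le_add (h3 0) (h3 1)) (h3 2)) (h3 3)
  have e0 := hE 0
  have e1 := hE 1
  have e2 := hE 2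
  have e3 := hE 3
  omega

/-- Size and injectivity of a quadratic polynomial. -/
theorem arg {a b c : ℚ} (hab : 0 < a ∨ (a = 0 ∧ b = 1)) : ∃ N0 : ℕ, ∀ N1 : ℕ, N0 ≤ N1 →
    ∃ κ : ℚ, 0 ≤ κ ∧ (∀ x : ℕ, 1 ≤ x → ∀ M : ℤ, (x : ℤ) + N1 ≤ M → M ≤ 2 * x + N1 →
      (x : ℚ) ≤ a * (M : ℚ) ^ 2 + b * M + c ∧ a * (M : ℚ) ^ 2 + b * M + c ≤ κ * (x : ℚ) ^ 2) ∧
      ∀ m n : ℤ, (N1 : ℤ) + 1 ≤ m → (N1 : ℤ) + 1 ≤ n →
        a * (m : ℚ) ^ 2 + b * m + c = a * (n : ℚ) ^ 2 + b * n + c → m = n := by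
  have hb0 := abs_nonneg b
  have hc0 := abs_nonneg c
  have hb1 := neg_abs_le b
  have hb2 := le_abs_self b
  have hc1 := neg_abs_le c
  have hc2 := le_abs_self c
  have ha : 0 ≤ a := by
    rcases hab with h | h
    · exact h.le
    · exact h.1.ge
  obtain ⟨N0, hN0⟩ : ∃ N0 : ℕ, ∀ M : ℚ, (N0 : ℚ) ≤ M → 1 ≤ M →
      M ≤ a * M ^ 2 + b * M + c + |c| ∧ 0 < a * M + b / 2 := by
    rcases hab with h | ⟨h, h'⟩
    · obtain ⟨N0, hN0⟩ := exists_nat_ge ((1 + |b|) / a)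
      rw [div_le_iff₀ h] at hN0
      refine ⟨N0, fun M hM hM1 => ?_⟩
      have h1 : (N0 : ℚ) * a ≤ M * a := mul_le_mul_of_nonneg_right hM h.le
      have h2 : (1 + |b|) * M ≤ M * a * M := mul_le_mul_of_nonneg_right (hN0.trans h1) (by linarith)
      have h3 : -|b| * M ≤ b * M := mul_le_mul_of_nonneg_right hb1 (by linarith)
      constructor
      · nlinarith
      · linarith
    · refine ⟨0, fun M _ hM1 => ?_⟩
      rw [h, h']
      constructor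
      · linarith
      · norm_num
  obtain ⟨N2, hN2⟩ := exists_nat_ge |c|
  refine ⟨N0 + N2, fun N1 hN1 => ?_⟩
  have hN1q : (N0 : ℚ) + N2 ≤ N1 := by exact_mod_cast hN1
  have hN0q : (0 : ℚ) ≤ N0 := Nat.cast_nonneg _
  have hN2q : (0 : ℚ) ≤ N2 := Nat.cast_nonneg _
  refine ⟨a * (2 + N1) ^ 2 + |b| * (2 + N1) + |c|, by positivity, fun x hx M h1 h2 => ?_,
    fun m n hm hn hmn => ?_⟩
  · have hxq : (1 : ℚ) ≤ x := by exact_mod_cast hx
    have h1q : (x : ℚ) + N1 ≤ M := by exact_mod_cast h1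
    have h2q : (M : ℚ) ≤ 2 * x + N1 := by exact_mod_cast h2
    obtain ⟨k1, -⟩ := hN0 M (by linarith) (by linarith)
    have hx2 : (x : ℚ) ≤ (x : ℚ) ^ 2 := by nlinarith
    refine ⟨by linarith, ?_⟩
    have h3 : (M : ℚ) ≤ (2 + N1) * x := by nlinarith
    have hM0 : (0 : ℚ) ≤ M := by linarith
    have h4 : (M : ℚ) ^ 2 ≤ ((2 + N1) * x) ^ 2 := pow_le_pow_left₀ hM0 h3 2
    have h5 : a * (M : ℚ) ^ 2 ≤ a * ((2 + N1) * x) ^ 2 := mul_le_mul_of_nonneg_left h4 ha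
    have h6 : b * (M : ℚ) ≤ |b| * ((2 + N1) * x) :=
      (mul_le_mul_of_nonneg_right hb2 hM0).trans (mul_le_mul_of_nonneg_left h3 hb0)
    have h7 : |b| * ((2 + N1) * (x : ℚ)) ≤ |b| * ((2 + N1) * (x : ℚ) ^ 2) := by
      apply mul_le_mul_of_nonneg_left _ hb0
      exact mul_le_mul_of_nonneg_left hx2 (by positivity)
    have h8 : |c| * 1 ≤ |c| * (x : ℚ) ^ 2 := mul_le_mul_of_nonneg_left (by linarith) hc0
    have h9 : (a * (2 + N1) ^ 2 + |b| * (2 + N1) + |c|) * (x : ℚ) ^ 2 =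
        a * ((2 + N1) * x) ^ 2 + |b| * ((2 + N1) * (x : ℚ) ^ 2) + |c| * (x : ℚ) ^ 2 := by ring
    rw [h9]; linarith
  · by_contra hne
    have hmq : (N1 : ℚ) + 1 ≤ m := by exact_mod_cast hm
    have hnq : (N1 : ℚ) + 1 ≤ n := by exact_mod_cast hn
    obtain ⟨-, k1⟩ := hN0 m (by linarith) (by linarith)
    obtain ⟨-, k2⟩ := hN0 n (by linarith) (by linarith)
    have h3 : ((m : ℚ) - n) * (a * (m + n) + b) = 0 := by linear_combination hmn
    rcases mul_eq_zero.1 h3 with h4 | h4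
    · apply hne
      have : (m : ℚ) = n := by linarith
      exact_mod_cast this
    · linarith

variable {K : Type*} [Field K] [NumberField K]

/-- Four nodes. -/
theorem ev4 (z : Fin 4 → K) (a b c : Fin 4 → ℚ) (hab : ∀ i, 0 < a i ∨ (a i = 0 ∧ b i = 1))
    {Q : (ℕ → ℤ) → (K → ℤ) → Prop}
    (hQ : ∀ h : ℕ → ℤ, CM h → ∀ e : K → ℤ, (∀ i, e (z i) = 1 ∨ e (z i) = -1) → ∀ M : ℤ,
      (∀ i, G h (z i) (a i * (M : ℚ) ^ 2 + b i * M + c i) = e (z i)) → Q h e) :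
    Ev [z 0, z 1, z 2, z 3] Q := by
  have hmemL : ∀ i, z i ∈ [z 0, z 1, z 2, z 3] := by
    intro i; fin_cases i <;> simp
  obtain ⟨D, hD, hDl⟩ := common_den [a 0, a 1, a 2, a 3, b 0, b 1, b 2, b 3, c 0, c 1, c 2, c 3]
  have hA : ∀ i, ∃ m : ℤ, (m : ℚ) = D * a i := by
    intro i; apply mem_ZZ.1; apply hDl; fin_cases i <;> simp
  have hB : ∀ i, ∃ m : ℤ, (m : ℚ) = D * b i := by
    intro i; apply mem_ZZ.1; apply hDl; fin_cases i <;> simp
  have hC : ∀ i, ∃ m : ℤ, (m : ℚ) = D * c i := by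
    intro i; apply mem_ZZ.1; apply hDl; fin_cases i <;> simp
  choose A hA using hA
  choose B hB using hB
  choose C hC using hC
  choose N0 hN0 using fun i => arg (c := c i) (hab i)
  obtain ⟨N1, hN1⟩ : ∃ N1, N1 = ∑ i, N0 i := ⟨_, rfl⟩
  have hle : ∀ i, N0 i ≤ N1 := by
    intro i; rw [hN1]; exact Finset.single_le_sum (f := N0) (fun _ _ => Nat.zero_le _) (Finset.mem_univ i)
  choose κ hκ0 hκ hinj using fun i => hN0 i N1 (hle i)
  have hκle : ∀ i, κ i ≤ ∑ i, κ i := fun i =>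
    Finset.single_le_sum (f := κ) (fun i _ => hκ0 i) (Finset.mem_univ i)
  have hsum : 0 ≤ ∑ i, κ i := Finset.sum_nonneg fun i _ => hκ0 i
  have hDq : (0 : ℚ) < D := by exact_mod_cast hD
  refine ⟨D, hD, 2 + ∑ i, κ i, by linarith, fun h hh x hx e hs hall => ?_⟩
  have hxq : (1 : ℚ) ≤ x := by exact_mod_cast hx
  obtain ⟨M, hM1, hM2, hM3⟩ := exists_common4 (x := x) (N := (x : ℤ) + N1)
    (fun i => exc h D x ((2 + ∑ i, κ i) * (x : ℚ) ^ 2) (z i) (e (z i)))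
    (fun i M => A i * M ^ 2 + B i * M + C i) (fun i => hall (z i) (hmemL i)) (by
      intro i m n hm hn hmn
      apply hinj i m n (by omega) (by omega)
      have h1 : ((A i * m ^ 2 + B i * m + C i : ℤ) : ℚ) = ((A i * n ^ 2 + B i * n + C i : ℤ) : ℚ) := by
        exact_mod_cast hmn
      push_cast at h1
      rw [hA, hB, hC] at h1
      apply mul_left_cancel₀ hDq.ne'
      linear_combination h1)
  refine hQ h hh e (fun i => hs _ (hmemL i)) M (fun i => ?_)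
  obtain ⟨b1, b2⟩ := hκ i x hx M hM1 (by omega)
  have hval : ((A i * M ^ 2 + B i * M + C i : ℤ) : ℚ) = D * (a i * (M : ℚ) ^ 2 + b i * M + c i) := by
    push_cast; rw [hA, hB, hC]; ring
  have hdiv : ((A i * M ^ 2 + B i * M + C i : ℤ) : ℚ) / D = a i * (M : ℚ) ^ 2 + b i * M + c i := by
    rw [hval]; field_simp
  by_contra hne
  apply hM3 i
  rw [mem_exc, hdiv, hval]
  refine ⟨⟨mul_le_mul_of_nonneg_left b1 hDq.le, mul_le_mul_of_nonneg_left (b2.trans ?_) hDq.le⟩, hne⟩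
  apply mul_le_mul_of_nonneg_right _ (sq_nonneg _)
  linarith [hκle i]

/-- Two quadratic polynomials in `w` and `w'`, where the signs of `-w` and `-w'` agree. -/
theorem rel_two (hd : Odd (Module.finrank ℚ K)) {w w' y₁ y₂ : K}
    (hw : w ∉ (⊥ : IntermediateField ℚ K)) (hw' : w' ∉ (⊥ : IntermediateField ℚ K))
    (hG : ∀ (h : ℕ → ℤ) (n : ℚ), G h (-w) n = G h (-w') n) {q₁ q₂ α₁ α₂ c₁ c₂ : ℚ}
    (hq₁ : 0 < q₁) (hq₂ : 0 < q₂) (e₁ : y₁ = (q₁ : K) * (w + (α₁ : K)) ^ 2 + (c₁ : K))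
    (e₂ : y₂ = (q₂ : K) * (w' + (α₂ : K)) ^ 2 + (c₂ : K)) :
    Ev [w, w', y₁, y₂] (fun h e => e w * (H h q₁ * e y₁) = e w' * (H h q₂ * e y₂)) := by
  have key : ∀ (w y : K) (q α c : ℚ), w ∉ (⊥ : IntermediateField ℚ K) → 0 < q →
      y = (q : K) * (w + (α : K)) ^ 2 + (c : K) → ∀ h : ℕ → ℤ, CM h → ∀ M : ℚ,
      G h w (M - 2 * α) * G h (-w) M = H h q * G h y (q * (M - α) ^ 2 + c) := by
    intro w y q α c hw hq hy h hh M
    have hq0 : q ≠ 0 := hq.ne'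
    have hqK : (q : K) ≠ 0 := by exact_mod_cast hq0
    have hnw : -w ∉ (⊥ : IntermediateField ℚ K) := by
      have := affine_not_mem hw (r := -1) (by norm_num) 0
      simpa using this
    have n1 : ((M - 2 * α : ℚ) : K) - w ≠ 0 := sub_ne_zero_of hw _
    have n2 : ((M : ℚ) : K) - -w ≠ 0 := sub_ne_zero_of hnw _
    have key : ((q * (M - α) ^ 2 + c : ℚ) : K) - y =
        (q : K) * ((((M - 2 * α : ℚ) : K) - w) * (((M : ℚ) : K) - -w)) := by
      rw [hy]; push_cast; ring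
    unfold G
    rw [key, H_norm_mul hh hqK (mul_ne_zero n1 n2), H_norm_q hd hh hq0, H_norm_mul hh n1 n2,
      ← mul_assoc, H_sq hh hq0, one_mul]
  refine ev4 ![w, w', y₁, y₂] ![0, 0, q₁, q₂] ![1, 1, -2 * q₁ * α₁, -2 * q₂ * α₂]
    ![-2 * α₁, -2 * α₂, q₁ * α₁ ^ 2 + c₁, q₂ * α₂ ^ 2 + c₂] (by
      intro i
      fin_cases i
      · right; exact ⟨rfl, rfl⟩
      · right; exact ⟨rfl, rfl⟩
      · left; exact hq₁
      · left; exact hq₂) ?_
  intro h hh e hs M hv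
  have v0 := hv 0
  have v1 := hv 1
  have v2 := hv 2
  have v3 := hv 3
  have s0 := hs 0
  have s1 := hs 1
  simp only [Matrix.cons_val_zero, Matrix.cons_val_one, Matrix.cons_val] at v0 v1 v2 v3 s0 s1
  have r0 : (0 : ℚ) * (M : ℚ) ^ 2 + 1 * M + -2 * α₁ = M - 2 * α₁ := by ring
  have r1 : (0 : ℚ) * (M : ℚ) ^ 2 + 1 * M + -2 * α₂ = M - 2 * α₂ := by ring
  have r2 : q₁ * (M : ℚ) ^ 2 + -2 * q₁ * α₁ * M + (q₁ * α₁ ^ 2 + c₁) = q₁ * (M - α₁) ^ 2 + c₁ := by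
    ring
  have r3 : q₂ * (M : ℚ) ^ 2 + -2 * q₂ * α₂ * M + (q₂ * α₂ ^ 2 + c₂) = q₂ * (M - α₂) ^ 2 + c₂ := by
    ring
  rw [r0] at v0
  rw [r1] at v1
  rw [r2] at v2
  rw [r3] at v3
  have k1 := key w y₁ q₁ α₁ c₁ hw hq₁ e₁ h hh M
  have k2 := key w' y₂ q₂ α₂ c₂ hw' hq₂ e₂ h hh M
  rw [v0, v2, hG] at k1
  rw [v1, v3] at k2
  show e w * (H h q₁ * e y₁) = e w' * (H h q₂ * e y₂)
  rw [← k1, ← k2]
  have t0 : e w * e w = 1 := by rcases s0 with s | s <;> rw [s] <;> norm_num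
  have t1 : e w' * e w' = 1 := by rcases s1 with s | s <;> rw [s] <;> norm_num
  rw [← mul_assoc, ← mul_assoc, t0, t1]

end Pool.Agent.Lib_helper3.CNT2
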