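import Mathlib
import Pool.Agent.Lib_helper3.CNT2.Rel
import Pool.Agent.Lib_helper11.CUB.Final

/-!
Families of irreducible polynomials one of which takes both signs more than `x / 4` times in
`[x, C x^2]`, for every `x`: two polynomials for cyclic cubic fields, four polynomials for all cubic
fields, `2 k` polynomials of degree `2 ^ k - 1`.
-/

namespace Pool.Agent.Lib_helper3.CNT2

open Pool.Agent.Lib_helper11.CUB Pool.Agent.Lib_helper3.QUI Polynomial
open Pool.Agent.Lib_helper48.EVEN (Gen gen_affine gen_sq affine_not_mem list_family)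
open Pool.Agent.Lib_helper48.CNT (exc mem_exc Maj Ev Ev.and Ev.imp Ev.sub Ev.signs windows_count
  gen_poly gen_cubic gen_neg)

section field

variable {K : Type*} [Field K] [NumberField K]

/-- The majority signs agree if the signs agree. -/
theorem ev_same {w w' : K} (hG : ∀ (h : ℕ → ℤ) (n : ℚ), G h w n = G h w' n) :
    Ev [w, w', w, w'] (fun _ e => e w = e w') := by
  refine ev4 ![w, w', w, w'] ![0, 0, 0, 0] ![1, 1, 1, 1] ![0, 0, 0, 0] (by
      intro i
      fin_cases i <;> exact Or.inr ⟨rfl, rfl⟩) ?_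
  intro h hh e hs M hv
  have v0 := hv 0
  have v1 := hv 1
  simp only [Matrix.cons_val_zero, Matrix.cons_val_one] at v0 v1
  rw [← v0, ← v1, hG]

/-- Elements with the same signs need not be listed twice. -/
theorem ev_drop {w w' : K} (hG : ∀ (h : ℕ → ℤ) (n : ℚ), G h w' n = G h w n) {L L' : List K}
    {Q : (ℕ → ℤ) → Prop} (H : Ev L (fun h _ => Q h)) (hL : ∀ z ∈ L, z = w' ∨ z ∈ L')
    (hw : w ∈ L') : Ev L' (fun h _ => Q h) := by
  classical
  obtain ⟨D, hD, C, hC, H⟩ := H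
  refine ⟨D, hD, C, hC, fun h hh x hx e hs hall => ?_⟩
  have hexc : ∀ X ε, exc h D x X w' ε = exc h D x X w ε := by
    intro X ε
    ext m
    rw [mem_exc, mem_exc, hG]
  refine H h hh x hx (Function.update e w' (e w)) (fun z hz => ?_) (fun z hz => ?_)
  · by_cases hzw : z = w'
    · rw [hzw, Function.update_self]; exact hs w hw
    · rw [Function.update_of_ne hzw]
      exact hs z ((hL z hz).resolve_left hzw)
  · by_cases hzw : z = w'
    · rw [hzw, Function.update_self]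
      unfold Maj
      rw [hexc]
      exact hall w hw
    · rw [Function.update_of_ne hzw]
      exact hall z ((hL z hz).resolve_left hzw)

/-- A path from `y` to `y'`. -/
def Path (y y' : K) (Q : (ℕ → ℤ) → ℤ) (N : ℕ) : Prop :=
  ∃ L : List K, L.length ≤ N ∧ (∀ u ∈ L, Gen u) ∧ y ∈ L ∧
    Ev (L ++ [y']) (fun h e => e y = Q h * e y')

/-- One step, along two quadratic polynomials in `w`. -/
theorem Path.step (hd : Odd (Module.finrank ℚ K)) (h1 : 1 < Module.finrank ℚ K) {w y y' : K}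
    (hw : Gen w) (hy : Gen y) {q α α' c c' : ℚ} (hq : 0 < q)
    (e₁ : y = (q : K) * (w + (α : K)) ^ 2 + (c : K))
    (e₂ : y' = (w + (α' : K)) ^ 2 + (c' : K)) : Path y y' (fun h => H h q) 2 := by
  have r := rel_two hd (hw.bot h1) (hw.bot h1) (fun _ _ => rfl) hq one_pos e₁ (q₂ := 1) (α₂ := α')
    (c₂ := c') (y₂ := y') (by rw [e₂]; push_cast; ring)
  refine ⟨[y, w], le_rfl, ?_, by simp, ((r.and (Ev.signs [w, y, y'])).sub ?_).imp ?_⟩
  · intro u hu
    simp only [List.mem_cons, List.not_mem_nil, or_false] at hu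
    rcases hu with rfl | rfl
    · exact hy
    · exact hw
  · intro u hu
    simp only [List.cons_append, List.nil_append, List.mem_cons, List.not_mem_nil, or_false] at hu ⊢
    tauto
  · rintro h hh e ⟨k1, k2⟩
    have v0 := k2 w (by simp)
    have h3 := H_nat hh 1
    rw [Nat.cast_one, hh.one] at h3
    rw [h3, one_mul] at k1
    have h4 := H_sq hh hq.ne'
    have h5 : H h q * e y = e y' := by
      rcases v0 with v | v <;> rw [v] at k1
      · linarith
      · linarith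
    rw [← h5, ← mul_assoc, h4, one_mul]

theorem Path.trans {y y' y'' : K} {Q Q' : (ℕ → ℤ) → ℤ} {N N' : ℕ} (c1 : Path y y' Q N)
    (c2 : Path y' y'' Q' N') : Path y y'' (fun h => Q h * Q' h) (N + N') := by
  obtain ⟨L, hL, hG, m1, s1⟩ := c1
  obtain ⟨L', hL', hG', m1', s2⟩ := c2
  refine ⟨L ++ L', by rw [List.length_append]; exact add_le_add hL hL', ?_,
    List.mem_append_left _ m1, ((s1.and s2).sub ?_).imp ?_⟩
  · intro u hu
    rcases List.mem_append.1 hu with h | h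
    · exact hG u h
    · exact hG' u h
  · intro u hu
    simp only [List.mem_append, List.mem_cons, List.not_mem_nil, or_false] at hu ⊢
    rcases hu with (hu | rfl) | (hu | hu)
    · exact Or.inl (Or.inl hu)
    · exact Or.inl (Or.inr m1')
    · exact Or.inl (Or.inr hu)
    · exact Or.inr hu
  · rintro h hh e ⟨k1, k2⟩
    rw [k1, k2, mul_assoc]

theorem Path.close {y : K} {Q : (ℕ → ℤ) → ℤ} {N : ℕ} (c1 : Path y y Q N) :
    ∃ L : List K, L.length ≤ N ∧ (∀ u ∈ L, Gen u) ∧ y ∈ L ∧ Ev L (fun h _ => Q h = 1) := by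
  obtain ⟨L, hL, hG, m1, s1⟩ := c1
  refine ⟨L, hL, hG, m1, ((s1.and (Ev.signs L)).sub ?_).imp ?_⟩
  · intro u hu
    simp only [List.mem_append, List.mem_cons, List.not_mem_nil, or_false] at hu
    rcases hu with (hu | rfl) | hu
    · exact hu
    · exact m1
    · exact hu
  · rintro h hh e ⟨k1, k2⟩
    rcases k2 y m1 with v | v <;> rw [v] at k1 <;> linarith

end field

/-- Cubic fields: for independent `t, s` there are `a, b ∈ ℚ` such that one of the minimal polynomials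
of `v t, v (t + a)^2, v s, v (s + b)^2` takes both signs more than `x / 4` times in `[x, C x^2]`. -/
theorem count_cubic4 {K : Type*} [Field K] [NumberField K] (h3 : Module.finrank ℚ K = 3) {t s : K}
    (hI : Ind t s) {p : ℕ} (hp : p.Prime) :
    ∃ a b : ℚ, ∃ m : ℕ, 1 ≤ m ∧ ∀ v : ℕ, 1 ≤ v → m ∣ v →
      (∀ z ∈ [t, (t + (a : K)) ^ 2, s, (s + (b : K)) ^ 2], IsIntegral ℤ ((v : K) * z) ∧
        Irreducible (minpoly ℤ ((v : K) * z)) ∧ (minpoly ℤ ((v : K) * z)).natDegree = 3) ∧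
      ∃ C : ℕ, ∀ h : ℕ → ℤ, CM h → h p = -1 → ∀ x : ℕ, 1 ≤ x →
        ∃ z ∈ [t, (t + (a : K)) ^ 2, s, (s + (b : K)) ^ 2], ∀ e : ℤ, (e = 1 ∨ e = -1) →
          x < 4 * ((Finset.Icc x (C * x ^ 2)).filter (fun n : ℕ =>
            h ((minpoly ℤ ((v : K) * z)).eval (n : ℤ)).natAbs = e)).card := by
  have hd : Odd (Module.finrank ℚ K) := by rw [h3]; decide
  have h1 : 1 < Module.finrank ℚ K := by rw [h3]; norm_num
  have hpq : (0 : ℚ) < p := by exact_mod_cast hp.pos
  have hpK : (p : K) ≠ 0 := by exact_mod_cast hp.ne_zero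
  have ht := gen_cubic h3 hI.left
  have hs := gen_cubic h3 hI.right
  obtain ⟨u1, v1, w1, e1⟩ := hI.span h3 (t ^ 2)
  obtain ⟨u2, v2, w2, e2⟩ := hI.span h3 (s ^ 2)
  obtain ⟨a, ha⟩ : ∃ a : ℚ, a = -(v1 - p * v2) / 2 := ⟨_, rfl⟩
  obtain ⟨b, hb⟩ : ∃ b : ℚ, b = -(w2 - w1) / 2 := ⟨_, rfl⟩
  obtain ⟨a', ha'⟩ : ∃ a : ℚ, a = (v2 - v1) / 2 := ⟨_, rfl⟩
  obtain ⟨b', hb'⟩ : ∃ b : ℚ, b = (w1 - p * w2) / (2 * p) := ⟨_, rfl⟩
  have E2 : (t + (a : K)) ^ 2 = ((p : ℚ) : K) * (s + (b' : K)) ^ 2 +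
      ((u1 - p * u2 + a ^ 2 - p * b' ^ 2 : ℚ) : K) := by
    have k1 : 2 * (a : K) = -(v1 - p * v2) := by rw [ha]; push_cast; ring
    have k2 : 2 * (p : K) * (b' : K) = w1 - p * w2 := by rw [hb']; push_cast; field_simp
    push_cast
    linear_combination e1 - (p : K) * e2 + t * k1 - s * k2
  have E4 : (s + (b : K)) ^ 2 = ((1 : ℚ) : K) * (t + (a' : K)) ^ 2 +
      ((u2 - u1 + b ^ 2 - a' ^ 2 : ℚ) : K) := by
    have k1 : 2 * (b : K) = -(w2 - w1) := by rw [hb]; push_cast; ring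
    have k2 : 2 * (a' : K) = v2 - v1 := by rw [ha']; push_cast; ring
    push_cast
    linear_combination e2 - e1 + s * k1 - t * k2
  have ga : Gen ((t + (a : K)) ^ 2) := gen_sq hd (by
    have := gen_affine ht (r := 1) one_ne_zero a
    simpa using this)
  have gb : Gen ((s + (b : K)) ^ 2) := gen_sq hd (by
    have := gen_affine hs (r := 1) one_ne_zero b
    simpa using this)
  have hG : ∀ y ∈ [t, (t + (a : K)) ^ 2, s, (s + (b : K)) ^ 2], Gen y := by
    intro y hy
    simp only [List.mem_cons, List.not_mem_nil, or_false] at hy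
    rcases hy with rfl | rfl | rfl | rfl
    · exact ht
    · exact ga
    · exact hs
    · exact gb
  have R1 := rel_two hd hI.right hI.right (fun _ _ => rfl) hpq one_pos E2 (q₂ := 1) (α₂ := b)
    (c₂ := 0) (y₂ := (s + (b : K)) ^ 2) (by push_cast; ring)
  have R2 := rel_two hd hI.left hI.left (fun _ _ => rfl) one_pos one_pos E4 (q₂ := 1) (α₂ := a)
    (c₂ := 0) (y₂ := (t + (a : K)) ^ 2) (by push_cast; ring)
  have hE : Ev [t, (t + (a : K)) ^ 2, s, (s + (b : K)) ^ 2] (fun h _ => h p = 1) := by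
    refine (((R1.and R2).and (Ev.signs [t, (t + (a : K)) ^ 2, s, (s + (b : K)) ^ 2])).sub ?_).imp ?_
    · intro y hy
      simp only [List.cons_append, List.nil_append, List.mem_cons, List.not_mem_nil, or_false] at hy ⊢
      tauto
    · rintro h hh e ⟨⟨k1, k2⟩, k3⟩
      have h3 := H_nat hh 1
      rw [Nat.cast_one, hh.one] at h3
      rw [h3, one_mul, H_nat hh] at k1
      rw [h3, one_mul, one_mul] at k2
      have v0 := k3 t (by simp)
      have v1 := k3 ((t + (a : K)) ^ 2) (by simp)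
      have v2 := k3 s (by simp)
      have j1 : h p * e ((t + (a : K)) ^ 2) = e ((s + (b : K)) ^ 2) := by
        rcases v2 with v | v <;> rw [v] at k1 <;> linarith
      have j2 : e ((s + (b : K)) ^ 2) = e ((t + (a : K)) ^ 2) := by
        rcases v0 with v | v <;> rw [v] at k2 <;> linarith
      rw [j2] at j1
      rcases v1 with v | v <;> rw [v] at j1 <;> linarith
  obtain ⟨m, hm, H⟩ := windows_count hd h1 hG hE
  refine ⟨a, b, m, hm, fun v hv hmv => ?_⟩
  obtain ⟨hint, C, H⟩ := H v hv hmv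
  refine ⟨fun z hz => ?_, C, fun h hh hhp x hx => H h hh (by rw [hhp]; norm_num) x hx⟩
  obtain ⟨-, k1, k2⟩ := gen_poly (hG z hz) hv (hint z hz)
  exact ⟨hint z hz, k1, by rw [k2, h3]⟩

/-- Cyclic cubic fields: for every `t` there is `a ∈ ℚ` such that one of the minimal polynomials of
`v t` and `v (t + a)^2` takes both signs more than `x / 4` times in `[x, C x^2]`. -/
theorem count_cyclic2 {K : Type*} [Field K] [NumberField K] [IsGalois ℚ K]
    (h3 : Module.finrank ℚ K = 3) {t : K} (ht0 : t ∉ (⊥ : IntermediateField ℚ K)) {p : ℕ}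
    (hp : p.Prime) :
    ∃ a : ℚ, ∃ m : ℕ, 1 ≤ m ∧ ∀ v : ℕ, 1 ≤ v → m ∣ v →
      (∀ z ∈ [t, (t + (a : K)) ^ 2], IsIntegral ℤ ((v : K) * z) ∧
        Irreducible (minpoly ℤ ((v : K) * z)) ∧ (minpoly ℤ ((v : K) * z)).natDegree = 3) ∧
      ∃ C : ℕ, ∀ h : ℕ → ℤ, CM h → h p = -1 → ∀ x : ℕ, 1 ≤ x →
        ∃ z ∈ [t, (t + (a : K)) ^ 2], ∀ e : ℤ, (e = 1 ∨ e = -1) →
          x < 4 * ((Finset.Icc x (C * x ^ 2)).filter (fun n : ℕ =>
            h ((minpoly ℤ ((v : K) * z)).eval (n : ℤ)).natAbs = e)).card := by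
  have hd : Odd (Module.finrank ℚ K) := by rw [h3]; decide
  have h1 : 1 < Module.finrank ℚ K := by rw [h3]; norm_num
  have hpq : (0 : ℚ) < p := by exact_mod_cast hp.pos
  have hpK : (p : K) ≠ 0 := by exact_mod_cast hp.ne_zero
  obtain ⟨s, -, -, -, -, -, hI, hconj⟩ := exists_conj h3 ht0
  have hconj' : ∀ (h : ℕ → ℤ) (n : ℚ), G h (-t) n = G h (-s) n := by
    intro h n
    have k1 := G_neg' h t (-n)
    have k2 := G_neg' h s (-n)
    rw [neg_neg] at k1 k2
    rw [k1, k2, hconj]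
  have ht := gen_cubic h3 ht0
  obtain ⟨u1, v1, w1, e1⟩ := hI.span h3 (t ^ 2)
  obtain ⟨u2, v2, w2, e2⟩ := hI.span h3 (s ^ 2)
  obtain ⟨a, ha⟩ : ∃ a : ℚ, a = -(v1 - p * v2) / 2 := ⟨_, rfl⟩
  obtain ⟨b', hb'⟩ : ∃ b : ℚ, b = (w1 - p * w2) / (2 * p) := ⟨_, rfl⟩
  have E2 : (t + (a : K)) ^ 2 = ((p : ℚ) : K) * (s + (b' : K)) ^ 2 +
      ((u1 - p * u2 + a ^ 2 - p * b' ^ 2 : ℚ) : K) := by
    have k1 : 2 * (a : K) = -(v1 - p * v2) := by rw [ha]; push_cast; ring
    have k2 : 2 * (p : K) * (b' : K) = w1 - p * w2 := by rw [hb']; push_cast; field_simp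
    push_cast
    linear_combination e1 - (p : K) * e2 + t * k1 - s * k2
  have ga : Gen ((t + (a : K)) ^ 2) := gen_sq hd (by
    have := gen_affine ht (r := 1) one_ne_zero a
    simpa using this)
  have hG : ∀ y ∈ [t, (t + (a : K)) ^ 2], Gen y := by
    intro y hy
    simp only [List.mem_cons, List.not_mem_nil, or_false] at hy
    rcases hy with rfl | rfl
    · exact ht
    · exact ga
  have R1 := rel_two hd hI.left hI.right hconj' one_pos hpq (q₁ := 1) (α₁ := a) (c₁ := 0)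
    (y₁ := (t + (a : K)) ^ 2) (by push_cast; ring) E2
  have R2 := ev_same (w := t) (w' := s) (fun h n => (hconj h n).symm)
  have hE0 : Ev [t, s, (t + (a : K)) ^ 2] (fun h _ => h p = 1) := by
    refine (((R1.and R2).and (Ev.signs [t, s, (t + (a : K)) ^ 2])).sub ?_).imp ?_
    · intro y hy
      simp only [List.cons_append, List.nil_append, List.mem_cons, List.not_mem_nil, or_false] at hy ⊢
      tauto
    · rintro h hh e ⟨⟨k1, k2⟩, k3⟩
      have h3 := H_nat hh 1
      rw [Nat.cast_one, hh.one] at h3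
      rw [h3, one_mul, H_nat hh, k2] at k1
      have v0 := k3 s (by simp)
      have v1 := k3 ((t + (a : K)) ^ 2) (by simp)
      rcases v0 with v | v <;> rcases v1 with v' | v' <;> rw [v, v'] at k1 <;> linarith
  have hE : Ev [t, (t + (a : K)) ^ 2] (fun h _ => h p = 1) := by
    refine ev_drop (w := t) (w' := s) hconj hE0 ?_ (by simp)
    intro z hz
    simp only [List.mem_cons, List.not_mem_nil, or_false] at hz ⊢
    tauto
  obtain ⟨m, hm, H⟩ := windows_count hd h1 hG hE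
  refine ⟨a, m, hm, fun v hv hmv => ?_⟩
  obtain ⟨hint, C, H⟩ := H v hv hmv
  refine ⟨fun z hz => ?_, C, fun h hh hhp x hx => H h hh (by rw [hhp]; norm_num) x hx⟩
  obtain ⟨-, k1, k2⟩ := gen_poly (hG z hz) hv (hint z hz)
  exact ⟨hint z hz, k1, by rw [k2, h3]⟩

/-- The degrees `2 ^ k - 1`: one of `2 k` polynomials takes both signs more than `x / 4` times in
`[x, C x^2]`. -/
theorem count_tower2 (k : ℕ) (hk : 2 ≤ k) {p : ℕ} (hp : p.Prime) :
    ∃ g : Fin (2 * k) → ℤ[X], (∀ i, (g i).Monic ∧ Irreducible (g i) ∧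
      (g i).natDegree = 2 ^ k - 1) ∧ ∃ C : ℕ, ∀ h : ℕ → ℤ, CM h → h p = -1 → ∀ x : ℕ, 1 ≤ x →
        ∃ i, ∀ s : ℤ, (s = 1 ∨ s = -1) → x < 4 * ((Finset.Icc x (C * x ^ 2)).filter (fun n : ℕ =>
          h ((g i).eval (n : ℤ)).natAbs = s)).card := by
  obtain ⟨u, hu, huh⟩ : ∃ u : ℕ, 1 ≤ u ∧ ∀ h : ℕ → ℤ, CM h → h p = -1 →
      h p ^ (k - 1) * h (p * u) = -1 := by
    rcases Nat.even_or_odd k with he | ho
    · refine ⟨p, hp.one_lt.le, fun h hh hhp => ?_⟩
      obtain ⟨j, hj⟩ : ∃ j, k - 1 = 2 * j + 1 := by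
        obtain ⟨j, hj⟩ := he
        exact ⟨j - 1, by omega⟩
      rw [hh.mul p p hp.one_lt.le hp.one_lt.le, hhp, hj, pow_succ, pow_mul]
      norm_num
    · refine ⟨1, le_rfl, fun h hh hhp => ?_⟩
      obtain ⟨j, hj⟩ := ho
      rw [mul_one, hhp, hj, Nat.add_sub_cancel, pow_mul]
      norm_num
  obtain ⟨K, _, _, hfin, w, hw, r1, r2⟩ := Pool.Agent.Lib_helper91.QUI.tower k hk p hp u hu
  have hgen : ∀ i < k, Gen (w i) := by
    intro i hi
    unfold Gen
    rw [← IntermediateField.adjoin.finrank (Algebra.IsIntegral.isIntegral (w i)), hw i hi,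
      IntermediateField.finrank_top']
  have hpow' : 4 ≤ 2 ^ k := by
    calc 4 = 2 ^ 2 := by norm_num
      _ ≤ 2 ^ k := Nat.pow_le_pow_right (by norm_num) hk
  have heven : Even (2 ^ k) := (Nat.even_pow.2 ⟨even_two, by omega⟩)
  have hd : Odd (Module.finrank ℚ K) := by
    rw [hfin]
    obtain ⟨j, hj⟩ := heven
    exact ⟨j - 1, by omega⟩
  have h1 : 1 < Module.finrank ℚ K := by rw [hfin]; omega
  have hpq : (0 : ℚ) < p := by exact_mod_cast hp.pos
  have huq : (0 : ℚ) < u := by exact_mod_cast hu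
  have hpK : (p : K) ≠ 0 := by exact_mod_cast hp.ne_zero
  have huK : (u : K) ≠ 0 := by exact_mod_cast (by omega : u ≠ 0)
  have step : ∀ i, i + 1 < k → Path (w i ^ 2) (w (i + 1) ^ 2) (fun h => H h p) 2 := by
    intro i hi
    refine Path.step hd h1 (hgen (i + 1) hi) (gen_sq hd (hgen i (by omega))) hpq
      (α := 1 / (2 * p)) (c := -1 / (4 * p)) (α' := 0) (c' := 0) ?_ (by push_cast; ring)
    rw [r1 i hi]
    push_cast
    field_simp
    ring
  have last : Path (w (k - 1) ^ 2) (w 0 ^ 2) (fun h => H h ((p : ℚ) * u)) 2 := by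
    refine Path.step hd h1 (hgen 0 (by omega)) (gen_sq hd (hgen (k - 1) (by omega)))
      (by positivity) (α := 1 / (2 * u)) (c := -p / (4 * u)) (α' := 0) (c' := 0) ?_
      (by push_cast; ring)
    rw [r2]
    push_cast
    field_simp
    ring
  have chain : ∀ j, 1 ≤ j → j < k → Path (w 0 ^ 2) (w j ^ 2) (fun h => H h p ^ j) (2 * j) := by
    intro j hj
    induction j, hj using Nat.le_induction with
    | base =>
      intro hk1
      simpa using step 0 hk1
    | succ j hj ih =>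
      intro hj2
      have := (ih (by omega)).trans (step j hj2)
      simpa [pow_succ, mul_add] using this
  have full : Path (w 0 ^ 2) (w 0 ^ 2) (fun h => H h p ^ (k - 1) * H h ((p : ℚ) * u)) (2 * k) := by
    have := (chain (k - 1) (by omega) (by omega)).trans last
    have e : 2 * (k - 1) + 2 = 2 * k := by omega
    rwa [e] at this
  obtain ⟨L, hL, hG, hmem, hE⟩ := full.close
  obtain ⟨m, hm, H⟩ := windows_count hd h1 hG hE
  obtain ⟨hint, C, H⟩ := H m hm dvd_rfl
  obtain ⟨y, hy1, hy2⟩ := list_family hL (List.ne_nil_of_mem hmem)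
  refine ⟨fun i => minpoly ℤ ((m : K) * y i), fun i => ?_, C, fun h hh hhp x hx => ?_⟩
  · obtain ⟨a, b, c⟩ := gen_poly (hG _ (hy1 i)) hm (hint _ (hy1 i))
    exact ⟨a, b, by rw [c, hfin]⟩
  · obtain ⟨z, hz, H'⟩ := H h hh (by
      have e1 : ((p : ℚ) * u) = ((p * u : ℕ) : ℚ) := by push_cast; rfl
      simp only [e1, H_nat hh, huh h hh hhp]
      norm_num) x hx
    obtain ⟨i, rfl⟩ := hy2 z hz
    exact ⟨i, H'⟩

end Pool.Agent.Lib_helper3.CNT2
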